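import Pool.Agent.T63.E8R.Rot

/-!
# Strength 8 implies strength 11
-/

set_option autoImplicit false

open MeasureTheory MvPolynomial
open scoped RealInnerProductSpace

namespace Pool.Agent.T63.E8R

open Pool.Agent.Q10.E8 Pool.Agent.Helper2.E8C

lemma orth_rot (R : E ≃ₗᵢ[ℝ] E) : Orth (fun k => lin (R.symm (e k))) where
  eu k := by
    have h := eul_pow (R.symm (e k)) 0
    simpa using h
  cst j k := by rw [pd_lin, pderiv_C]
  row k l := by
    simp only [pd_lin, ← map_mul, ← map_sum]
    rw [show (if k = l then (1 : P8) else 0) = C (if k = l then 1 else 0) by split_ifs <;> simp]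
    congr 1
    have h1 : ⟪R.symm (e k), R.symm (e l)⟫ = ⟪e k, e l⟫ := R.symm.inner_map_map _ _
    rw [PiLp.inner_apply, inner_e] at h1
    have h2 : (e k) l = if k = l then 1 else 0 := by
      unfold e
      rw [EuclideanSpace.single_apply]
      by_cases h : k = l
      · subst h; simp
      · rw [if_neg h, if_neg (fun h' => h h'.symm)]
    rw [h2] at h1
    rw [← h1]
    refine Finset.sum_congr rfl fun i _ => ?_
    simp [mul_comm]
  nr := by
    apply MvPolynomial.funext
    intro x
    unfold nr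
    rw [map_sum, map_sum]
    have h1 : ∀ k, eval x (lin (R.symm (e k)) ^ 2) = (R (WithLp.toLp 2 x) k) ^ 2 := by
      intro k
      have h := eval_phi R (WithLp.toLp 2 x) (X k)
      have hx : (fun k => (WithLp.toLp 2 x : E) k) = x := rfl
      rw [hx, eval_X] at h
      have h2 : phi R (X k) = lin (R.symm (e k)) := by
        unfold phi
        rw [aeval_X]
      rw [h2] at h
      rw [map_pow, h]
    simp only [h1, map_pow, eval_X]
    have h3 : ‖R (WithLp.toLp 2 x)‖ ^ 2 = ‖(WithLp.toLp 2 x : E)‖ ^ 2 := by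
      rw [R.norm_map]
    rw [EuclideanSpace.norm_sq_eq, EuclideanSpace.norm_sq_eq] at h3
    simpa using h3

lemma Lam_phi (R : E ≃ₗᵢ[ℝ] E) (p : P8) : Lam (phi R p) = phi R (Lam p) := Lam_sub (orth_rot R) p

/-- functionals with the two relations which vanish in degree `≤ 8` vanish in degree `≤ 11` -/
theorem up {L : P8 →ₗ[ℝ] ℝ} (h1 : ∀ p : P8, p.totalDegree ≤ 11 → L (Lam p) = -112 * L p)
    (h2 : ∀ p, L (nr * p) = 2 * L p) (h8 : ∀ p : P8, p.totalDegree ≤ 8 → L p = 0) (p : P8)
    (hp : p.totalDegree ≤ 11) : L p = 0 := by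
  have key : ∀ n : ℕ, n ≤ 11 → ∀ q : P8, q.IsHomogeneous n → L q = 0 := by
    intro n
    induction n using Nat.strong_induction_on with
    | _ n ih =>
      intro hn q hq
      by_cases hn8 : n ≤ 8
      · exact h8 q (hq.totalDegree_le.trans hn8)
      · have e1 : eul q = C (n : ℝ) * q := by
          unfold eul
          rw [hq.sum_X_mul_pderiv, nsmul_eq_mul, map_natCast]
        have e2 : L (lap q) = 0 := by
          refine ih (n - 1 - 1) (by omega) (by omega) _ ?_
          unfold lap
          exact IsHomogeneous.sum _ _ _ fun i _ => hq.pderiv.pderiv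
        have e3 := h1 q (hq.totalDegree_le.trans hn)
        have e4 : Lam q = nr * lap q - C ((n : ℝ) * n + 6 * n) * q := by
          unfold Lam
          rw [e1, eul_C_mul, e1, C_add, C_mul, C_mul, show (C 6 : P8) = 6 from map_ofNat C 6]
          ring
        have e5 : ∀ (r : ℝ) (a : P8), L (C r * a) = r * L a := fun r a => by
          rw [← smul_eq_C_mul, map_smul, smul_eq_mul]
        rw [e4, map_sub, h2, e2, e5] at e3
        have hc : ((n : ℝ) * n + 6 * n - 112) ≠ 0 := by
          have : n = 9 ∨ n = 10 ∨ n = 11 := by omega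
          rcases this with rfl | rfl | rfl <;> norm_num
        have e6 : ((n : ℝ) * n + 6 * n - 112) * L q = 0 := by linarith
        exact (mul_eq_zero.1 e6).resolve_left hc
  rw [← sum_homogeneousComponent p, map_sum]
  refine Finset.sum_eq_zero fun i hi => ?_
  rw [Finset.mem_range] at hi
  exact key i (by omega) _ (homogeneousComponent_isHomogeneous i p)

/-- strength 8 implies strength 11 for the roots -/
theorem eight_eleven {ι : Type} [Fintype ι] (g : ι → E ≃ₗᵢ[ℝ] E) (w : ι → ℝ) (h : Dsg 8 1 g w) :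
    Dsg 11 1 g w := by
  rw [Dsg_iff, Lm_one] at h ⊢
  intro p hp
  have hu := up (L := ∑ i, w i • (L1 ∘ₗ (phi (g i)).toLinearMap)) ?_ ?_ ?_ p hp
  · simpa using hu
  · intro q hq
    have h3 : ∀ i, L1 (phi (g i) (Lam q)) = -112 * L1 (phi (g i) q) := by
      intro i
      rw [← Lam_phi, L1_Lam _ ((deg_phi _ _).trans hq)]
    simp only [LinearMap.sum_apply, LinearMap.smul_apply, LinearMap.comp_apply,
      AlgHom.toLinearMap_apply, smul_eq_mul, h3]
    rw [Finset.mul_sum]
    exact Finset.sum_congr rfl fun i _ => by ring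
  · intro q
    have h3 : ∀ i, L1 (phi (g i) (nr * q)) = 2 * L1 (phi (g i) q) := by
      intro i
      have h4 : phi (g i) nr = nr := by
        have := (orth_rot (g i)).nr
        unfold nr at this ⊢
        unfold phi
        rw [map_sum]
        simp only [map_pow, aeval_X]
        exact this
      rw [map_mul, h4, L1_nr]
    simp only [LinearMap.sum_apply, LinearMap.smul_apply, LinearMap.comp_apply,
      AlgHom.toLinearMap_apply, smul_eq_mul, h3]
    rw [Finset.mul_sum]
    exact Finset.sum_congr rfl fun i _ => by ring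
  · intro q hq
    have := h q hq
    simpa using this

theorem Dsg_mono {t t' m : ℕ} (htt : t ≤ t') {ι : Type} [Fintype ι] {g : ι → E ≃ₗᵢ[ℝ] E} {w : ι → ℝ}
    (h : Dsg t' m g w) : Dsg t m g w := fun p hp => h p (hp.trans htt)

/-- the main theorem on unions -/
theorem unions {m : ℕ} (hm : 0 < m) (hS : ¬ ∀ p : P8, p.totalDegree ≤ 8 → Lm m p = 0)
    {ι : Type} [Fintype ι] (g : ι → E ≃ₗᵢ[ℝ] E) (w : ι → ℝ) :
    (Dsg 8 m g w ↔ Dsg 11 m g w) ∧ (Dsg 8 m g w ↔ Dsg 8 1 g w) := by
  have h8 := same (t := 8) (by norm_num) hm hS g w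
  have h11 := same (t := 11) le_rfl hm hS g w
  refine ⟨⟨fun h => h11.2 (eight_eleven g w (h8.1 h)), fun h => Dsg_mono (by norm_num) h⟩, h8⟩

end Pool.Agent.T63.E8R
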