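import Pool.Agent.Helper2.E8C.Fun4

/-!
# The spherical Laplacian on polynomials in eight variables
-/

set_option autoImplicit false

open MvPolynomial

namespace Pool.Agent.T63.E8R

open Pool.Agent.Helper2.E8C

lemma two_C : (2 : P8) = C 2 := (map_ofNat (C : ℝ →+* P8) 2).symm

/-- `|x|²` -/
noncomputable def nr : P8 := ∑ i, X i ^ 2

/-- the operator of Euler -/
noncomputable def eul (p : P8) : P8 := ∑ i, X i * pderiv i p

/-- the Laplacian -/
noncomputable def lap (p : P8) : P8 := ∑ i, pderiv i (pderiv i p)

/-- the spherical Laplacian -/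
noncomputable def Lam (p : P8) : P8 := nr * lap p - eul (eul p) - 6 * eul p

lemma eul_add (p q : P8) : eul (p + q) = eul p + eul q := by
  unfold eul
  simp only [map_add, mul_add, Finset.sum_add_distrib]

lemma eul_smul (r : ℝ) (p : P8) : eul (r • p) = r • eul p := by
  unfold eul
  rw [Finset.smul_sum]
  refine Finset.sum_congr rfl fun i _ => ?_
  rw [Derivation.map_smul, mul_smul_comm]

lemma lap_add (p q : P8) : lap (p + q) = lap p + lap q := by
  unfold lap
  simp only [map_add, Finset.sum_add_distrib]

lemma lap_smul (r : ℝ) (p : P8) : lap (r • p) = r • lap p := by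
  unfold lap
  rw [Finset.smul_sum]
  refine Finset.sum_congr rfl fun i _ => ?_
  rw [Derivation.map_smul, Derivation.map_smul]

/-- the spherical Laplacian as a linear map -/
noncomputable def LamL : P8 →ₗ[ℝ] P8 where
  toFun := Lam
  map_add' p q := by
    unfold Lam
    rw [lap_add, eul_add, eul_add]
    ring
  map_smul' r p := by
    unfold Lam
    rw [lap_smul, eul_smul, eul_smul]
    simp only [RingHom.id_apply, smul_sub, mul_smul_comm]

lemma LamL_apply (p : P8) : LamL p = Lam p := rfl

lemma eul_mul (p q : P8) : eul (p * q) = p * eul q + q * eul p := by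
  unfold eul
  rw [Finset.mul_sum, Finset.mul_sum, ← Finset.sum_add_distrib]
  refine Finset.sum_congr rfl fun i _ => ?_
  rw [Derivation.leibniz, smul_eq_mul, smul_eq_mul]
  ring

lemma pderiv_nr (i : Fin 8) : pderiv i nr = 2 * X i := by
  unfold nr
  rw [map_sum]
  have : ∀ j : Fin 8, pderiv i ((X j : P8) ^ 2) = if j = i then 2 * X i else 0 := by
    intro j
    rw [pderiv_pow, pderiv_X]
    by_cases h : j = i
    · subst h
      simp
    · rw [if_neg h, Pi.single_apply, if_neg (Ne.symm (Ne.symm h))]
      simp
  rw [Finset.sum_congr rfl fun j _ => this j]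
  simp

lemma eul_nr : eul nr = 2 * nr := by
  unfold eul
  simp only [pderiv_nr]
  unfold nr
  rw [Finset.mul_sum]
  refine Finset.sum_congr rfl fun i _ => ?_
  ring

lemma lap_nr_mul (p : P8) : lap (nr * p) = 16 * p + 4 * eul p + nr * lap p := by
  unfold lap eul
  have : ∀ i : Fin 8, pderiv i (pderiv i (nr * p)) =
      2 * p + 4 * (X i * pderiv i p) + nr * pderiv i (pderiv i p) := by
    intro i
    rw [Derivation.leibniz, pderiv_nr, smul_eq_mul, smul_eq_mul, map_add, Derivation.leibniz,
      Derivation.leibniz, pderiv_nr, smul_eq_mul, smul_eq_mul, smul_eq_mul, smul_eq_mul,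
      Derivation.leibniz, smul_eq_mul, smul_eq_mul]
    have h2 : pderiv i (2 : P8) = 0 := by
      rw [two_C, pderiv_C]
    rw [h2, pderiv_X_self]
    ring
  rw [Finset.sum_congr rfl fun i _ => this i, Finset.sum_add_distrib, Finset.sum_add_distrib]
  simp only [← Finset.mul_sum, Finset.sum_const, Finset.card_univ, Fintype.card_fin, nsmul_eq_mul]
  push_cast
  ring

lemma Lam_nr_mul (p : P8) : Lam (nr * p) = nr * Lam p := by
  unfold Lam
  have h2 : eul (2 : P8) = 0 := by
    unfold eul
    refine Finset.sum_eq_zero fun i _ => ?_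
    rw [two_C, pderiv_C, mul_zero]
  rw [lap_nr_mul, eul_mul, eul_nr, eul_add, eul_mul, eul_mul, eul_nr, eul_mul, h2, eul_nr]
  ring

lemma Lam_one : Lam 1 = 0 := by
  have h1 : ∀ i : Fin 8, pderiv i (1 : P8) = 0 := fun i => by
    rw [show (1 : P8) = C 1 by simp, pderiv_C]
  unfold Lam lap eul
  simp [h1]

/-- orthogonal substitutions -/
structure Orth (f : Fin 8 → P8) : Prop where
  eu : ∀ k, eul (f k) = f k
  cst : ∀ j k, pderiv j (pderiv j (f k)) = 0
  row : ∀ k l, ∑ j, pderiv j (f k) * pderiv j (f l) = if k = l then 1 else 0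
  nr : ∑ k, f k ^ 2 = nr

lemma chain (f : Fin 8 → P8) (j : Fin 8) (p : P8) :
    pderiv j (aeval f p) = ∑ k, aeval f (pderiv k p) * pderiv j (f k) := by
  induction p using MvPolynomial.induction_on with
  | C a => simp
  | add p q hp hq =>
    simp only [map_add, hp, hq, add_mul, Finset.sum_add_distrib]
  | mul_X p i hp =>
    rw [map_mul, aeval_X, Derivation.leibniz, hp, smul_eq_mul, smul_eq_mul]
    have : ∀ k : Fin 8, aeval f (pderiv k (p * X i)) * pderiv j (f k) =
        f i * (aeval f (pderiv k p) * pderiv j (f k)) +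
          (if k = i then aeval f p * pderiv j (f i) else 0) := by
      intro k
      rw [Derivation.leibniz, smul_eq_mul, smul_eq_mul, map_add, map_mul, map_mul, aeval_X]
      by_cases h : k = i
      · subst h
        rw [pderiv_X_self, if_pos rfl]
        simp
        ring
      · rw [pderiv_X_of_ne (fun h' => h h'.symm), if_neg h]
        simp
        ring
    rw [Finset.sum_congr rfl fun k _ => this k, Finset.sum_add_distrib, ← Finset.mul_sum]
    simp
    ring

lemma eul_sub {f : Fin 8 → P8} (hf : Orth f) (p : P8) : eul (aeval f p) = aeval f (eul p) := by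
  have h1 : eul (aeval f p) = ∑ k, aeval f (pderiv k p) * eul (f k) := by
    unfold eul
    simp only [chain, Finset.mul_sum]
    rw [Finset.sum_comm]
    refine Finset.sum_congr rfl fun k _ => Finset.sum_congr rfl fun i _ => ?_
    ring
  rw [h1]
  unfold eul
  rw [map_sum]
  refine Finset.sum_congr rfl fun k _ => ?_
  have := hf.eu k
  unfold eul at this
  rw [this, map_mul, aeval_X]
  ring

lemma lap_sub {f : Fin 8 → P8} (hf : Orth f) (p : P8) : lap (aeval f p) = aeval f (lap p) := by
  have h1 : ∀ j, pderiv j (pderiv j (aeval f p)) =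
      ∑ k, ∑ l, aeval f (pderiv l (pderiv k p)) * (pderiv j (f k) * pderiv j (f l)) := by
    intro j
    rw [chain, map_sum]
    refine Finset.sum_congr rfl fun k _ => ?_
    rw [Derivation.leibniz, hf.cst, smul_zero, zero_add, smul_eq_mul, chain, Finset.mul_sum]
    refine Finset.sum_congr rfl fun l _ => ?_
    ring
  unfold lap
  rw [Finset.sum_congr rfl fun j _ => h1 j, Finset.sum_comm, map_sum]
  refine Finset.sum_congr rfl fun k _ => ?_
  rw [Finset.sum_comm]
  have h2 : ∀ l, ∑ j, aeval f (pderiv l (pderiv k p)) * (pderiv j (f k) * pderiv j (f l)) =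
      if k = l then aeval f (pderiv l (pderiv k p)) else 0 := by
    intro l
    rw [← Finset.mul_sum, hf.row k l]
    split_ifs <;> simp
  rw [Finset.sum_congr rfl fun l _ => h2 l]
  simp

lemma Lam_sub {f : Fin 8 → P8} (hf : Orth f) (p : P8) : Lam (aeval f p) = aeval f (Lam p) := by
  unfold Lam
  have h6 : aeval f (6 : P8) = 6 := map_ofNat (aeval f) 6
  have hn : aeval f nr = nr := by
    have := hf.nr
    unfold nr at this ⊢
    rw [map_sum]
    simp only [map_pow, aeval_X]
    exact this
  rw [lap_sub hf, eul_sub hf, eul_sub hf, map_sub, map_sub, map_mul, map_mul, hn, h6]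

lemma eul_X (k : Fin 8) : eul (X k) = X k := by
  unfold eul
  rw [Finset.sum_eq_single k]
  · rw [pderiv_X_self, mul_one]
  · intro i _ hi
    rw [pderiv_X_of_ne (fun h => hi h.symm), mul_zero]
  · simp

lemma row_X (k l : Fin 8) : ∑ j, pderiv j (X k : P8) * pderiv j (X l : P8) = if k = l then 1 else 0 := by
  rw [Finset.sum_eq_single k]
  · rw [pderiv_X_self, one_mul]
    split_ifs with h
    · subst h; rw [pderiv_X_self]
    · rw [pderiv_X_of_ne (fun h' => h h'.symm)]
  · intro i _ hi
    rw [pderiv_X_of_ne (fun h => hi h.symm), zero_mul]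
  · simp

lemma cst_X (j k : Fin 8) : pderiv j (pderiv j (X k : P8)) = 0 := by
  by_cases h : j = k
  · subst h
    rw [pderiv_X_self, show (1 : P8) = C 1 by simp, pderiv_C]
  · rw [pderiv_X_of_ne (fun h' => h h'.symm), map_zero]

lemma orth_perm (σ : Equiv.Perm (Fin 8)) : Orth (fun k => X (σ k)) where
  eu k := eul_X _
  cst j k := cst_X _ _
  row k l := by
    rw [row_X]
    simp
  nr := by
    unfold nr
    exact Equiv.sum_comp σ (fun i => (X i : P8) ^ 2)

lemma eul_neg (p : P8) : eul (-p) = - eul p := by
  unfold eul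
  simp

lemma orth_flip (i j : Fin 8) : Orth (fX i j) where
  eu k := by
    unfold fX
    split_ifs
    · rw [eul_neg, eul_X]
    · exact eul_X _
  cst a k := by
    unfold fX
    split_ifs
    · rw [map_neg, map_neg, cst_X, neg_zero]
    · exact cst_X _ _
  row k l := by
    have hs : ∀ a k : Fin 8, pderiv a (fX i j k) = (if k = i ∨ k = j then -1 else 1) * pderiv a (X k : P8) := by
      intro a k
      unfold fX
      split_ifs
      · rw [map_neg]; ring
      · ring
    simp only [hs]
    have h2 : ∀ a : Fin 8, (if k = i ∨ k = j then (-1 : P8) else 1) * pderiv a (X k : P8) *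
        ((if l = i ∨ l = j then (-1 : P8) else 1) * pderiv a (X l : P8)) =
        ((if k = i ∨ k = j then (-1 : P8) else 1) * (if l = i ∨ l = j then (-1 : P8) else 1)) *
          (pderiv a (X k : P8) * pderiv a (X l : P8)) := fun a => by ring
    rw [Finset.sum_congr rfl fun a _ => h2 a, ← Finset.mul_sum, row_X]
    by_cases hkl : k = l
    · subst hkl
      simp only [if_true, mul_one]
      split_ifs <;> ring
    · simp [hkl]
  nr := by
    unfold nr
    refine Finset.sum_congr rfl fun k _ => ?_
    unfold fX
    split_ifs <;> ring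

lemma eul_sub' (p q : P8) : eul (p - q) = eul p - eul q := by
  unfold eul
  simp only [map_sub, mul_sub, Finset.sum_sub_distrib]

lemma eul_C_mul (r : ℝ) (p : P8) : eul (C r * p) = C r * eul p := by
  rw [← smul_eq_C_mul, ← smul_eq_C_mul, eul_smul]

/-- the coefficients of `gX`, times `2` -/
def bz (k j : Fin 8) : ℤ := if k.val < 4 then
    2 * (if j = k then 1 else 0) - ((if j = 0 then 1 else 0) + (if j = 1 then 1 else 0) +
      (if j = 2 then 1 else 0) + (if j = 3 then 1 else 0))
    else 2 * (if j = k then 1 else 0) - ((if j = 4 then 1 else 0) + (if j = 5 then 1 else 0) +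
      (if j = 6 then 1 else 0) + (if j = 7 then 1 else 0))

lemma bz_row : ∀ k l : Fin 8, ∑ j, bz k j * bz l j = if k = l then 4 else 0 := by
  decide +kernel

lemma pd_gX (j k : Fin 8) : pderiv j (gX k) = C ((bz k j : ℝ) / 2) := by
  have hx : ∀ l : Fin 8, pderiv j (X l : P8) = C (if j = l then 1 else 0) := by
    intro l
    by_cases h : j = l
    · subst h; simp
    · rw [pderiv_X_of_ne (fun h' => h h'.symm), if_neg h]; simp
  unfold gX bz
  by_cases hk : k.val < 4
  · rw [if_pos hk, if_pos hk]
    rw [map_sub, Derivation.leibniz, pderiv_C, smul_zero, add_zero, smul_eq_mul, map_add, map_add,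
      map_add, hx, hx, hx, hx, hx, ← map_add, ← map_add, ← map_add, ← map_mul, ← map_sub]
    congr 1
    push_cast
    ring
  · rw [if_neg hk, if_neg hk]
    rw [map_sub, Derivation.leibniz, pderiv_C, smul_zero, add_zero, smul_eq_mul, map_add, map_add,
      map_add, hx, hx, hx, hx, hx, ← map_add, ← map_add, ← map_add, ← map_mul, ← map_sub]
    congr 1
    push_cast
    ring

lemma orth_g : Orth gX where
  eu k := by
    unfold gX
    split_ifs
    · rw [eul_sub', eul_C_mul, eul_add, eul_add, eul_add]
      simp only [eul_X]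
    · rw [eul_sub', eul_C_mul, eul_add, eul_add, eul_add]
      simp only [eul_X]
  cst j k := by rw [pd_gX, pderiv_C]
  row k l := by
    simp only [pd_gX, ← map_mul, ← map_sum]
    rw [show (if k = l then (1 : P8) else 0) = C (if k = l then 1 else 0) by split_ifs <;> simp]
    congr 1
    have h := bz_row k l
    have h2 : ∑ j, (bz k j : ℝ) * (bz l j : ℝ) = if k = l then 4 else 0 := by
      have : ((∑ j, bz k j * bz l j : ℤ) : ℝ) = ((if k = l then 4 else 0 : ℤ) : ℝ) := by rw [h]
      push_cast at this
      exact this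
    have h3 : ∑ j, (bz k j : ℝ) / 2 * ((bz l j : ℝ) / 2) = (∑ j, (bz k j : ℝ) * (bz l j : ℝ)) / 4 := by
      rw [Finset.sum_div]
      refine Finset.sum_congr rfl fun j _ => ?_
      ring
    rw [h3, h2]
    split_ifs <;> norm_num
  nr := by
    unfold nr gX
    simp only [Fin.sum_univ_eight]
    have h2 : (C (1 / 2) : P8) * 2 = 1 := by
      rw [two_C, ← map_mul]
      norm_num
    rw [if_pos (by decide), if_pos (by decide), if_pos (by decide), if_pos (by decide),
      if_neg (by decide), if_neg (by decide), if_neg (by decide), if_neg (by decide)]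
    linear_combination ((X 0 + X 1 + X 2 + X 3) ^ 2 + (X 4 + X 5 + X 6 + X 7) ^ 2) * (2 * C (1 / 2)) * h2

end Pool.Agent.T63.E8R
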