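import Pool.Agent.T63.E8R.Rel

/-!
# The eighth power sum over the roots of `E_8` has the minimum `57/2 |y|^8`
-/

set_option autoImplicit false

open MeasureTheory MvPolynomial
open scoped RealInnerProductSpace

namespace Pool.Agent.T63.E8R

open Pool.Agent.Q10.E8 Pool.Agent.Helper2.E8C

theorem M_82 (i : Fin 8) (hi : i ≠ 0) : M i 8 2 = F 10 (e 0) / 9 := by
  have h := key 5 i hi
  have h1 := h 1
  have h1' := h (-1)
  have h2 := h 2
  have h2' := h (-2)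
  have h3 := h 3
  have h3' := h (-3)
  have h4 := h 4
  have h4' := h (-4)
  have h5 := h 5
  have h5' := h (-5)
  have h0 := M_full i 10
  clear h
  simp [Finset.sum_range_succ, Nat.choose] at h1 h1' h2 h2' h3 h3' h4 h4' h5 h5'
  norm_num [h0] at h1 h1' h2 h2' h3 h3' h4 h4' h5 h5'
  linarith

theorem F10 : F 10 (e 0) = 9 / 2048 * V := by
  have h8 := rec_M 8
  rw [Fin.sum_univ_eight] at h8
  rw [M_zero, M_82 1 (by decide), M_82 2 (by decide), M_82 3 (by decide), M_82 4 (by decide),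
    M_82 5 (by decide), M_82 6 (by decide), M_82 7 (by decide), consts.2.2.2] at h8
  unfold V
  generalize sg.real Set.univ = W at h8 ⊢
  norm_num at h8
  linarith

lemma sqrt2 : Real.sqrt 2 ^ 2 = 2 := Real.sq_sqrt (by norm_num)

theorem Sg2 (y : E) : Sg 2 y = 60 * ‖y‖ ^ 2 := by
  have h := L1_pow 2 y
  rw [L1_low y 2 (by norm_num), (moments y).1, sqrt2] at h
  have hV := V_pos
  apply mul_right_cancel₀ hV.ne'
  unfold V at h ⊢
  linarith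

theorem Sg4 (y : E) : Sg 4 y = 36 * ‖y‖ ^ 4 := by
  have h := L1_pow 4 y
  rw [L1_low y 4 (by norm_num), (moments y).2.1,
    show Real.sqrt 2 ^ 4 = 4 by rw [show ∀ x : ℝ, x ^ 4 = (x ^ 2) ^ 2 from fun x => by ring, sqrt2]; norm_num] at h
  have hV := V_pos
  apply mul_right_cancel₀ hV.ne'
  unfold V at h ⊢
  linarith

theorem Sg6 (y : E) : Sg 6 y = 30 * ‖y‖ ^ 6 := by
  have h := L1_pow 6 y
  rw [L1_low y 6 (by norm_num), (moments y).2.2.1,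
    show Real.sqrt 2 ^ 6 = 8 by rw [show ∀ x : ℝ, x ^ 6 = (x ^ 2) ^ 3 from fun x => by ring, sqrt2]; norm_num] at h
  have hV := V_pos
  apply mul_right_cancel₀ hV.ne'
  unfold V at h ⊢
  linarith

theorem L1_8 (y : E) : L1 (lin y ^ 8) = (Sg 8 y - 30 * ‖y‖ ^ 8) * V := by
  have h := L1_pow 8 y
  rw [(moments y).2.2.2,
    show Real.sqrt 2 ^ 8 = 16 by rw [show ∀ x : ℝ, x ^ 8 = (x ^ 2) ^ 4 from fun x => by ring, sqrt2]; norm_num] at h
  rw [h]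
  unfold V
  ring

theorem L1_10 (y : E) : L1 (lin y ^ 10) = (Sg 10 y - 135 / 4 * ‖y‖ ^ 10) * V := by
  have h := L1_pow 10 y
  rw [F_eq, F10,
    show Real.sqrt 2 ^ 10 = 32 by rw [show ∀ x : ℝ, x ^ 10 = (x ^ 2) ^ 5 from fun x => by ring, sqrt2]; norm_num] at h
  rw [h]
  ring

theorem Sg10 (y : E) : Sg 10 y = 15 / 4 * ‖y‖ ^ 2 * Sg 8 y - 315 / 4 * ‖y‖ ^ 10 := by
  have h := L1_ten y
  rw [L1_8, L1_10] at h
  have hV := V_pos
  apply mul_right_cancel₀ hV.ne'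
  linarith

/-- the minimum of the eighth power sum -/
theorem Sg8_ge (y : E) : 57 / 2 * ‖y‖ ^ 8 ≤ Sg 8 y := by
  rcases eq_or_lt_of_le (norm_nonneg y) with h0 | h0
  · rw [← h0]
    have : 0 ≤ Sg 8 y := Finset.sum_nonneg fun r _ => by positivity
    simpa using this
  have h1 : 0 ≤ ∑ r ∈ shell 1, ((∑ i, y i * hv r i) ^ 2 * ((∑ i, y i * hv r i) ^ 2 - 1 / 4 * ‖y‖ ^ 2) ^ 2 *
      ((∑ i, y i * hv r i) ^ 2 - ‖y‖ ^ 2) ^ 2) :=
    Finset.sum_nonneg fun r _ => by positivity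
  have h2 : ∑ r ∈ shell 1, ((∑ i, y i * hv r i) ^ 2 * ((∑ i, y i * hv r i) ^ 2 - 1 / 4 * ‖y‖ ^ 2) ^ 2 *
      ((∑ i, y i * hv r i) ^ 2 - ‖y‖ ^ 2) ^ 2) =
      Sg 10 y - 5 / 2 * ‖y‖ ^ 2 * Sg 8 y + 33 / 16 * ‖y‖ ^ 4 * Sg 6 y - 5 / 8 * ‖y‖ ^ 6 * Sg 4 y +
        1 / 16 * ‖y‖ ^ 8 * Sg 2 y := by
    unfold Sg
    simp only [Finset.mul_sum, ← Finset.sum_add_distrib, ← Finset.sum_sub_distrib]
    refine Finset.sum_congr rfl fun r _ => ?_
    ring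
  rw [h2, Sg10, Sg6, Sg4, Sg2] at h1
  have h3 : 0 ≤ ‖y‖ ^ 2 * (5 / 4 * (Sg 8 y - 57 / 2 * ‖y‖ ^ 8)) := by
    nlinarith
  have h4 := nonneg_of_mul_nonneg_right h3 (by positivity)
  linarith

end Pool.Agent.T63.E8R
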