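import Pool.Agent.T63.E8R.Lap
import Pool.Agent.Helper2.E8C.Asm3
import Pool.Agent.Helper97.E8C.Trans
import Pool.Agent.Helper95.E8C.Const

/-!
# Power sums over the roots of `E_8`
-/

set_option autoImplicit false

open MeasureTheory MvPolynomial
open scoped RealInnerProductSpace

namespace Pool.Agent.T63.E8R

open Pool.Agent.Q10.E8 Pool.Agent.Helper2.E8C

theorem hA : S_AUT := Pool.Agent.Helper97.E8C.t_AUT

theorem hT : S_TRANS := Pool.Agent.Helper97.E8C.t_TRANS

/-- the area of the sphere -/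
noncomputable abbrev V : ℝ := sg.real Set.univ

lemma pd_lin (y : E) (i : Fin 8) : pderiv i (lin y) = C (y i) := by
  unfold lin
  rw [map_sum, Finset.sum_eq_single i]
  · rw [Derivation.leibniz, pderiv_C, pderiv_X_self]; simp
  · intro j _ hj
    rw [Derivation.leibniz, pderiv_C, pderiv_X_of_ne hj]; simp
  · simp

lemma sum_CX (y : E) : ∑ i, X i * C (y i) = lin y := by
  unfold lin
  exact Finset.sum_congr rfl fun i _ => mul_comm _ _

lemma eul_pow (y : E) (n : ℕ) : eul (lin y ^ (n + 1)) = ((n + 1 : ℕ) : P8) * lin y ^ (n + 1) := by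
  unfold eul
  have : ∀ i : Fin 8, X i * pderiv i (lin y ^ (n + 1)) =
      (((n + 1 : ℕ) : P8) * lin y ^ n) * (X i * C (y i)) := by
    intro i
    rw [pderiv_pow, pd_lin, Nat.add_sub_cancel]
    ring
  rw [Finset.sum_congr rfl fun i _ => this i, ← Finset.mul_sum, sum_CX]
  ring

lemma eul_natCast_mul (n : ℕ) (p : P8) : eul ((n : P8) * p) = (n : P8) * eul p := by
  rw [show (n : P8) = C (n : ℝ) from (map_natCast C n).symm]
  exact eul_C_mul _ _

lemma lap_pow (y : E) (n : ℕ) : lap (lin y ^ (n + 2)) =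
    ((n + 2 : ℕ) : P8) * ((n + 1 : ℕ) : P8) * (C (‖y‖ ^ 2) * lin y ^ n) := by
  unfold lap
  have : ∀ i : Fin 8, pderiv i (pderiv i (lin y ^ (n + 2))) =
      (((n + 2 : ℕ) : P8) * ((n + 1 : ℕ) : P8) * lin y ^ n) * C (y i ^ 2) := by
    intro i
    rw [pderiv_pow, pd_lin, show n + 2 - 1 = n + 1 by omega, Derivation.leibniz, pderiv_C,
      smul_zero, zero_add, Derivation.leibniz, pderiv_pow, pd_lin, Nat.add_sub_cancel,
      show ((n + 2 : ℕ) : P8) = C ((n + 2 : ℕ) : ℝ) from (map_natCast C _).symm, pderiv_C, smul_zero,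
      add_zero, smul_eq_mul, smul_eq_mul, C_pow]
    ring
  rw [Finset.sum_congr rfl fun i _ => this i, ← Finset.mul_sum, ← map_sum]
  have h : ∑ i, y i ^ 2 = ‖y‖ ^ 2 := by
    rw [EuclideanSpace.norm_sq_eq]
    simp
  rw [h]
  ring

lemma Lam_pow (y : E) (n : ℕ) : Lam (lin y ^ (n + 2)) =
    C (((n + 2 : ℕ) : ℝ) * ((n + 1 : ℕ) : ℝ) * ‖y‖ ^ 2) * (nr * lin y ^ n) -
      C (((n + 2 : ℕ) : ℝ) * ((n + 8 : ℕ) : ℝ)) * lin y ^ (n + 2) := by
  unfold Lam
  rw [lap_pow, show n + 2 = (n + 1) + 1 by omega, eul_pow, eul_natCast_mul, eul_pow]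
  simp only [C_mul, map_natCast]
  push_cast
  ring

/-- the functional of the roots -/
noncomputable def L1 : P8 →ₗ[ℝ] ℝ := Lw 1 (fun _ => 1)

theorem g1 : Good L1 (2 * ((1 : ℕ) : ℝ)) := good hA (fun _ _ _ _ => rfl)

/-- the functional composed with the spherical Laplacian -/
noncomputable def L2 : P8 →ₗ[ℝ] ℝ := L1 ∘ₗ LamL

lemma L2_apply (p : P8) : L2 p = L1 (Lam p) := rfl

theorem g2 : Good L2 (2 * ((1 : ℕ) : ℝ)) where
  perm σ p := by
    have h0 : (rename σ : P8 →ₐ[ℝ] P8) = aeval (fun k => (X (σ k) : P8)) := by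
      apply MvPolynomial.algHom_ext
      intro k
      rw [rename_X, aeval_X]
    have h : rename σ p = aeval (fun k => (X (σ k) : P8)) p := DFunLike.congr_fun h0 p
    have h' : rename σ (Lam p) = aeval (fun k => (X (σ k) : P8)) (Lam p) := DFunLike.congr_fun h0 _
    rw [L2_apply, L2_apply, h, Lam_sub (orth_perm σ), ← h', g1.perm]
  flp i j hij p := by
    rw [L2_apply, L2_apply, Lam_sub (orth_flip i j), g1.flp i j hij]
  g p := by
    rw [L2_apply, L2_apply, Lam_sub orth_g, g1.g]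
  nrm p := by
    rw [L2_apply, L2_apply]
    have := Lam_nr_mul p
    unfold nr at this
    rw [this, g1.nrm]
  one := by
    rw [L2_apply, Lam_one, map_zero]

lemma good_comb {L L' : P8 →ₗ[ℝ] ℝ} {c : ℝ} (h : Good L c) (h' : Good L' c) (a b : ℝ) :
    Good (a • L - b • L') c where
  perm σ p := by simp [h.perm, h'.perm]
  flp i j hij p := by simp only [LinearMap.sub_apply, LinearMap.smul_apply, h.flp i j hij, h'.flp i j hij]
  g p := by simp only [LinearMap.sub_apply, LinearMap.smul_apply, h.g, h'.g]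
  nrm p := by
    simp only [LinearMap.sub_apply, LinearMap.smul_apply, h.nrm, h'.nrm, smul_eq_mul]
    ring
  one := by simp [h.one, h'.one]

/-- two functionals with the same symmetries are proportional in degree `≤ 11` -/
theorem prop11 {L L' : P8 →ₗ[ℝ] ℝ} {c : ℝ} (h : Good L c) (h' : Good L' c) (p : P8)
    (hp : p.totalDegree ≤ 11) : L' ((X 0 + X 1) ^ 8) * L p = L ((X 0 + X 1) ^ 8) * L' p := by
  have h1 := all_poly (good_comb h h' (L' ((X 0 + X 1) ^ 8)) (L ((X 0 + X 1) ^ 8))) 11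
    (Or.inr ⟨le_rfl, by
      simp only [LinearMap.sub_apply, LinearMap.smul_apply, smul_eq_mul]
      ring⟩) p hp
  simp only [LinearMap.sub_apply, LinearMap.smul_apply, smul_eq_mul] at h1
  linarith

/-- a root -/
def r0 : Fin 8 → ℤ := ![2, 2, 0, 0, 0, 0, 0, 0]

lemma lin_r0 : lin (zz r0) = X 0 + X 1 := by
  apply MvPolynomial.funext
  intro x
  rw [eval_lin]
  simp [Fin.sum_univ_eight, zz_apply, r0]

lemma rootSum_root {v : Fin 8 → ℤ} (hv : v ∈ shell 1) : rootSum v = 624 := by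
  have hv' := (mem_shell 1 v).1 hv
  have h := Pool.Agent.Helper95.E8C.main_id (by norm_num) hv' (t_RM hA)
  rw [Pool.Agent.Helper95.E8C.P_zero (by norm_num) hv'] at h
  norm_num at h
  exact h

theorem L1_q8 : L1 ((X 0 + X 1) ^ 8) = 144 * V := by
  have hw : Inv 1 (fun _ => (1 : ℝ)) := fun _ _ _ _ => rfl
  have h1 := hT (TT 1 fun _ => 1) (TT_perm hA hw) (TT_flip hA hw) (TT_gq hA hw)
  have h2 := sum_TT 1 (fun _ => 1)
  rw [Finset.sum_congr rfl h1, Finset.sum_const, card_roots, nsmul_eq_mul, TT_base] at h2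
  have h3 : ∑ v ∈ shell 1, (1 : ℝ) * ((rootSum v : ℝ) - 480 * ((1 : ℕ) : ℝ) ^ 4) = 240 * 144 := by
    have : ∀ v ∈ shell 1, (1 : ℝ) * ((rootSum v : ℝ) - 480 * ((1 : ℕ) : ℝ) ^ 4) = 144 := by
      intro v hv
      rw [rootSum_root hv]
      norm_num
    rw [Finset.sum_congr rfl this, Finset.sum_const, card_roots, nsmul_eq_mul]
    norm_num
  rw [h3] at h2
  unfold L1
  push_cast at h2
  linarith

lemma V_pos : 0 < V := vol_pos

lemma L1_C (r : ℝ) (p : P8) : L1 (C r * p) = r * L1 p := by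
  rw [← smul_eq_C_mul, map_smul, smul_eq_mul]

lemma L1_low (y : E) (k : ℕ) (hk : k ≤ 7) : L1 (lin y ^ k) = 0 :=
  all_poly g1 7 (Or.inl le_rfl) _ ((deg_lin_pow y k).trans hk)

lemma L1_nr (p : P8) : L1 (nr * p) = 2 * L1 p := by
  have := g1.nrm p
  unfold nr
  rw [this]
  norm_num

lemma L2_q8 : L2 ((X 0 + X 1) ^ 8) = -112 * L1 ((X 0 + X 1) ^ 8) := by
  have e := Lam_pow (zz r0) 6
  rw [← lin_r0, L2_apply, e, map_sub, L1_C, L1_C, L1_nr, L1_low _ _ (by norm_num)]
  norm_num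

theorem L1_Lam (p : P8) (hp : p.totalDegree ≤ 11) : L1 (Lam p) = -112 * L1 p := by
  have h := prop11 g2 g1 p hp
  rw [L2_q8, L2_apply] at h
  have h0 : L1 ((X 0 + X 1) ^ 8) ≠ 0 := by
    rw [L1_q8]
    have := V_pos
    positivity
  apply mul_left_cancel₀ h0
  linarith

theorem L1_ten (y : E) : 4 * L1 (lin y ^ 10) = 15 * ‖y‖ ^ 2 * L1 (lin y ^ 8) := by
  have h := L1_Lam (lin y ^ 10) ((deg_lin_pow y 10).trans (by norm_num))
  have e := Lam_pow y 8
  rw [e, map_sub, L1_C, L1_C, L1_nr] at h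
  push_cast at h
  norm_num at h ⊢
  linarith

/-- the power sums over the roots -/
noncomputable def Sg (k : ℕ) (y : E) : ℝ := ∑ r ∈ shell 1, (∑ i, y i * hv r i) ^ k

lemma L1_pow (k : ℕ) (y : E) : L1 (lin y ^ k) = Sg k y * V - 240 * (Real.sqrt 2 ^ k * F k y) := by
  unfold L1
  rw [Lw_apply]
  have e1 : ∑ v ∈ shell 1, (1 : ℝ) * eval (hv v) (lin y ^ k) = Sg k y := by
    unfold Sg
    refine Finset.sum_congr rfl fun v _ => ?_
    rw [map_pow, eval_lin, one_mul]
  have e2 : ∀ u : S7, eval (su 1 u) (lin y ^ k) = Real.sqrt 2 ^ k * ⟪(u : E), y⟫ ^ k := by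
    intro u
    have e0 : ∑ i, y i * su 1 u i = Real.sqrt 2 * ⟪(u : E), y⟫ := by
      rw [PiLp.inner_apply, Finset.mul_sum]
      refine Finset.sum_congr rfl fun i _ => ?_
      simp [su]
      ring
    rw [map_pow, eval_lin, e0, mul_pow]
  rw [e1]
  simp only [e2]
  rw [integral_const_mul, Finset.sum_const, card_roots, nsmul_eq_mul]
  have e3 : ∫ u : S7, ⟪(u : E), y⟫ ^ k ∂sg = F k y := rfl
  rw [e3]
  push_cast
  ring

end Pool.Agent.T63.E8R
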