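import Pool.Agent.T63.E8R.Mom

/-!
# Unions of rotated copies of a shell
-/

set_option autoImplicit false

open MeasureTheory MvPolynomial
open scoped RealInnerProductSpace

namespace Pool.Agent.T63.E8R

open Pool.Agent.Q10.E8 Pool.Agent.Helper2.E8C

/-- substitutions by linear forms do not raise the degree -/
lemma deg_aeval {f : Fin 8 → P8} (hf : ∀ k, (f k).totalDegree ≤ 1) (p : P8) :
    (aeval f p).totalDegree ≤ p.totalDegree := by
  rw [aeval_def, eval₂_eq]
  refine (totalDegree_finsetSum _ _).trans (Finset.sup_le fun d hd => ?_)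
  refine (totalDegree_mul _ _).trans ?_
  rw [show algebraMap ℝ P8 (coeff d p) = C (coeff d p) from rfl, totalDegree_C, zero_add]
  refine (totalDegree_finset_prod _ _).trans ?_
  have h1 : ∑ i ∈ d.support, (f i ^ d i).totalDegree ≤ ∑ i ∈ d.support, d i := by
    refine Finset.sum_le_sum fun i _ => ?_
    refine (totalDegree_pow _ _).trans ?_
    calc d i * (f i).totalDegree ≤ d i * 1 := Nat.mul_le_mul_left _ (hf i)
      _ = d i := mul_one _
  exact h1.trans (le_totalDegree hd)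

/-- the substitution of a rotation -/
noncomputable def phi (R : E ≃ₗᵢ[ℝ] E) : P8 →ₐ[ℝ] P8 := aeval (fun k => lin (R.symm (e k)))

lemma eval_phi (R : E ≃ₗᵢ[ℝ] E) (x : E) (p : P8) :
    eval (fun k => x k) (phi R p) = eval (fun k => (R x) k) p := by
  unfold phi
  rw [eval_aeval']
  congr 2
  funext k
  rw [eval_lin]
  have h1 : ⟪R x, e k⟫ = ⟪x, R.symm (e k)⟫ := by
    rw [← R.inner_map_map x (R.symm (e k)), R.apply_symm_apply]
  rw [inner_e] at h1
  rw [h1, PiLp.inner_apply]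
  refine Finset.sum_congr rfl fun i _ => ?_
  simp

lemma deg_phi (R : E ≃ₗᵢ[ℝ] E) (p : P8) : (phi R p).totalDegree ≤ p.totalDegree :=
  deg_aeval (fun k => deg_lin _) p

lemma phi_lin (R : E ≃ₗᵢ[ℝ] E) (y : E) : phi R (lin y) = lin (R.symm y) := by
  apply MvPolynomial.funext
  intro x
  have h := eval_phi R (WithLp.toLp 2 x) (lin y)
  have hx : (fun k => (WithLp.toLp 2 x : E) k) = x := rfl
  rw [hx] at h
  rw [h, eval_lin, eval_lin]
  have h1 : ⟪R (WithLp.toLp 2 x), y⟫ = ⟪(WithLp.toLp 2 x : E), R.symm y⟫ := by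
    rw [← R.inner_map_map (WithLp.toLp 2 x) (R.symm y), R.apply_symm_apply]
  rw [PiLp.inner_apply, PiLp.inner_apply] at h1
  simpa using h1

/-- the scaling by `s` -/
noncomputable def sc (s : ℝ) : P8 →ₐ[ℝ] P8 := aeval (fun k => C s * X k)

lemma deg_sc (s : ℝ) (p : P8) : (sc s p).totalDegree ≤ p.totalDegree := by
  refine deg_aeval (fun k => ?_) p
  refine (totalDegree_mul _ _).trans ?_
  rw [totalDegree_C, totalDegree_X]

lemma sc_X (s : ℝ) (k : Fin 8) : sc s (X k) = C s * X k := by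
  unfold sc
  rw [aeval_X]

lemma sc_C (s r : ℝ) : sc s (C r) = C r := by
  unfold sc
  rw [aeval_C]
  rfl

lemma sc_lin (s : ℝ) (y : E) : sc s (lin y) = C s * lin y := by
  unfold lin
  rw [map_sum, Finset.mul_sum]
  refine Finset.sum_congr rfl fun i _ => ?_
  rw [map_mul, sc_C, sc_X]
  ring

lemma sc_sc {s t : ℝ} (h : s * t = 1) (p : P8) : sc s (sc t p) = p := by
  have h1 : (sc s).comp (sc t) = AlgHom.id ℝ P8 := by
    apply MvPolynomial.algHom_ext
    intro k
    rw [AlgHom.comp_apply, sc_X, map_mul, sc_C, sc_X, ← mul_assoc, ← C_mul, mul_comm t s, h]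
    simp
  exact DFunLike.congr_fun h1 p

lemma sc_phi (s : ℝ) (R : E ≃ₗᵢ[ℝ] E) (p : P8) : sc s (phi R p) = phi R (sc s p) := by
  have h1 : (sc s).comp (phi R) = (phi R).comp (sc s) := by
    apply MvPolynomial.algHom_ext
    intro k
    rw [AlgHom.comp_apply, AlgHom.comp_apply, sc_X, map_mul]
    have h2 : phi R (X k) = lin (R.symm (e k)) := by
      unfold phi
      rw [aeval_X]
    have h3 : phi R (C s) = C s := by
      unfold phi
      rw [aeval_C]
      rfl
    rw [h2, h3, sc_lin]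
  exact DFunLike.congr_fun h1 p

/-- the functional of the roots, scaled -/
noncomputable def Ls (s : ℝ) : P8 →ₗ[ℝ] ℝ := L1 ∘ₗ (sc s).toLinearMap

lemma Ls_apply (s : ℝ) (p : P8) : Ls s p = L1 (sc s p) := rfl

lemma sc_aeval_comm {f : Fin 8 → P8} (s : ℝ) (hf : ∀ k, sc s (f k) = C s * f k) (p : P8) :
    sc s (aeval f p) = aeval f (sc s p) := by
  have h1 : (sc s).comp (aeval f) = (aeval f).comp (sc s) := by
    apply MvPolynomial.algHom_ext
    intro k
    rw [AlgHom.comp_apply, AlgHom.comp_apply, sc_X, map_mul, aeval_X, aeval_C, hf]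
    rfl
  exact DFunLike.congr_fun h1 p

lemma sc_neg_X (s : ℝ) (k : Fin 8) : sc s (- X k) = C s * (- X k) := by
  rw [map_neg, sc_X]; ring

theorem good_Ls (s : ℝ) (m : ℕ) (hs : s ^ 2 = m) : Good (Ls s) (2 * (m : ℝ)) where
  perm σ p := by
    have h0 : (rename σ : P8 →ₐ[ℝ] P8) = aeval (fun k => (X (σ k) : P8)) := by
      apply MvPolynomial.algHom_ext
      intro k
      rw [rename_X, aeval_X]
    have h : rename σ p = aeval (fun k => (X (σ k) : P8)) p := DFunLike.congr_fun h0 p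
    have h' : rename σ (sc s p) = aeval (fun k => (X (σ k) : P8)) (sc s p) := DFunLike.congr_fun h0 _
    rw [Ls_apply, Ls_apply, h, sc_aeval_comm s (fun k => sc_X s _), ← h', g1.perm]
  flp i j hij p := by
    rw [Ls_apply, Ls_apply, sc_aeval_comm s (fun k => ?_), g1.flp i j hij]
    unfold fX
    split_ifs
    · exact sc_neg_X s k
    · exact sc_X s k
  g p := by
    rw [Ls_apply, Ls_apply, sc_aeval_comm s (fun k => ?_), g1.g]
    unfold gX
    split_ifs <;>
    · rw [map_sub, map_mul, map_add, map_add, map_add, sc_X, sc_X, sc_X, sc_X, sc_X, sc_C]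
      ring
  nrm p := by
    rw [Ls_apply, Ls_apply, map_mul, map_sum]
    have h1 : ∑ i : Fin 8, sc s (X i ^ 2) = C (m : ℝ) * ∑ i : Fin 8, (X i : P8) ^ 2 := by
      rw [Finset.mul_sum]
      refine Finset.sum_congr rfl fun i _ => ?_
      rw [map_pow, sc_X, mul_pow, ← C_pow, hs]
    rw [h1, mul_assoc, L1_C, g1.nrm]
    push_cast
    ring
  one := by
    rw [Ls_apply, map_one, g1.one]

lemma Ls_q8 (s : ℝ) : Ls s ((X 0 + X 1) ^ 8) = s ^ 8 * (144 * V) := by
  rw [Ls_apply, map_pow, map_add, sc_X, sc_X, ← mul_add, mul_pow, ← C_pow, L1_C, L1_q8]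

/-- the functional of the whole shell -/
noncomputable def Lm (m : ℕ) : P8 →ₗ[ℝ] ℝ := Lw m (fun _ => 1)

theorem good_Lm (m : ℕ) : Good (Lm m) (2 * (m : ℝ)) := good hA (fun _ _ _ _ => rfl)

/-- every shell is proportional to the roots in degree `≤ 11` -/
theorem Lm_eq {m : ℕ} (hm : 0 < m) : ∃ κ : ℝ, ∀ p : P8, p.totalDegree ≤ 11 →
    Lm m p = κ * L1 (sc (Real.sqrt m) p) := by
  have hs : Real.sqrt m ^ 2 = m := Real.sq_sqrt (by positivity)
  have hs0 : 0 < Real.sqrt m := Real.sqrt_pos.2 (by exact_mod_cast hm)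
  have hV := V_pos
  refine ⟨Lm m ((X 0 + X 1) ^ 8) / (Real.sqrt m ^ 8 * (144 * V)), fun p hp => ?_⟩
  have h := prop11 (good_Lm m) (good_Ls _ m hs) p hp
  rw [Ls_q8, Ls_apply] at h
  rw [div_mul_eq_mul_div, eq_div_iff (by positivity)]
  linarith

/-- weighted unions of rotated copies of the shell `S_m` with strength `t` -/
def Dsg (t m : ℕ) {ι : Type} [Fintype ι] (g : ι → E ≃ₗᵢ[ℝ] E) (w : ι → ℝ) : Prop :=
  ∀ p : P8, p.totalDegree ≤ t →
    (∑ i, w i * ∑ v ∈ shell m, eval (fun k => (g i (zz v)) k) p) * V =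
      ((∑ i, w i) * (shell m).card) * ∫ u, eval (su m u) p ∂sg

lemma Lm_phi (m : ℕ) (R : E ≃ₗᵢ[ℝ] E) (p : P8) : Lm m (phi R p) =
    (∑ v ∈ shell m, eval (fun k => (R (zz v)) k) p) * V - (shell m).card * ∫ u, eval (su m u) p ∂sg := by
  unfold Lm
  rw [Lw_apply]
  have e1 : ∑ v ∈ shell m, (1 : ℝ) * eval (hv v) (phi R p) =
      ∑ v ∈ shell m, eval (fun k => (R (zz v)) k) p := by
    refine Finset.sum_congr rfl fun v _ => ?_
    rw [one_mul, ← eval_phi]
    rfl
  have e2 : ∫ u, eval (su m u) (phi R p) ∂sg = ∫ u, eval (su m u) p ∂sg := by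
    rw [← integral_rot R (fun u => eval (su m u) p) (cont_ev m p)]
    refine integral_congr_ae (Filter.Eventually.of_forall fun u => ?_)
    show eval (su m u) (phi R p) = eval (su m (rot R u)) p
    have h1 := eval_phi R (Real.sqrt (2 * (m : ℝ)) • (u : E)) p
    have h2 : (fun k => (Real.sqrt (2 * (m : ℝ)) • (u : E)) k) = su m u := by
      funext k
      simp [su]
    have h3 : (fun k => (R (Real.sqrt (2 * (m : ℝ)) • (u : E))) k) = su m (rot R u) := by
      funext k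
      rw [map_smul]
      simp [su, rot]
    rw [h2, h3] at h1
    exact h1
  rw [e1, e2]
  simp

lemma Dsg_iff (t m : ℕ) {ι : Type} [Fintype ι] (g : ι → E ≃ₗᵢ[ℝ] E) (w : ι → ℝ) :
    Dsg t m g w ↔ ∀ p : P8, p.totalDegree ≤ t → ∑ i, w i * Lm m (phi (g i) p) = 0 := by
  unfold Dsg
  refine forall_congr' fun p => imp_congr_right fun _ => ?_
  have h : ∑ i, w i * Lm m (phi (g i) p) =
      (∑ i, w i * ∑ v ∈ shell m, eval (fun k => (g i (zz v)) k) p) * V -
        ((∑ i, w i) * (shell m).card) * ∫ u, eval (su m u) p ∂sg := by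
    simp only [Lm_phi, mul_sub, Finset.sum_sub_distrib]
    rw [Finset.sum_mul, Finset.sum_mul, Finset.sum_mul]
    congr 1
    · exact Finset.sum_congr rfl fun i _ => by ring
    · exact Finset.sum_congr rfl fun i _ => by ring
  rw [h, sub_eq_zero]

lemma Lm_one : Lm 1 = L1 := rfl

/-- the whole shell -/
lemma Lm_phi_refl (m : ℕ) (p : P8) : phi (LinearIsometryEquiv.refl ℝ E) p = p := by
  apply MvPolynomial.funext
  intro x
  have h := eval_phi (LinearIsometryEquiv.refl ℝ E) (WithLp.toLp 2 x) p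
  exact h

theorem same {t m : ℕ} (ht : t ≤ 11) (hm : 0 < m)
    (hS : ¬ ∀ p : P8, p.totalDegree ≤ 8 → Lm m p = 0) {ι : Type} [Fintype ι]
    (g : ι → E ≃ₗᵢ[ℝ] E) (w : ι → ℝ) : Dsg t m g w ↔ Dsg t 1 g w := by
  obtain ⟨κ, hκ⟩ := Lm_eq hm
  have hκ0 : κ ≠ 0 := by
    rintro rfl
    exact hS fun p hp => by rw [hκ p (hp.trans (by norm_num)), zero_mul]
  have hs0 : 0 < Real.sqrt m := Real.sqrt_pos.2 (by exact_mod_cast hm)
  have key : ∀ p : P8, p.totalDegree ≤ t → ∑ i, w i * Lm m (phi (g i) p) =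
      κ * ∑ i, w i * L1 (phi (g i) (sc (Real.sqrt m) p)) := by
    intro p hp
    rw [Finset.mul_sum]
    refine Finset.sum_congr rfl fun i _ => ?_
    rw [hκ _ ((deg_phi _ _).trans (hp.trans ht)), sc_phi]
    ring
  rw [Dsg_iff, Dsg_iff, Lm_one]
  constructor
  · intro h p hp
    have h1 := h (sc (Real.sqrt m)⁻¹ p) ((deg_sc _ _).trans hp)
    rw [key _ ((deg_sc _ _).trans hp), sc_sc (mul_inv_cancel₀ hs0.ne')] at h1
    exact (mul_eq_zero.1 h1).resolve_left hκ0
  · intro h p hp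
    rw [key p hp, h _ ((deg_sc _ _).trans hp), mul_zero]

/-- unions with one heavy copy -/
theorem heavy {ι : Type} [Fintype ι] [DecidableEq ι] (g : ι → E ≃ₗᵢ[ℝ] E) (w : ι → ℝ)
    (hw : ∀ i, 0 ≤ w i) (i₀ : ι) (h6 : ∑ i ∈ Finset.univ.erase i₀, w i < 6 * w i₀) :
    ¬ Dsg 8 1 g w := by
  intro h
  rw [Dsg_iff, Lm_one] at h
  have h1 := h (lin (g i₀ (zz r0)) ^ 8) (deg_lin_pow _ 8)
  have h2 : ∀ i, L1 (phi (g i) (lin (g i₀ (zz r0)) ^ 8)) = L1 (lin ((g i).symm (g i₀ (zz r0))) ^ 8) := by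
    intro i
    rw [map_pow, phi_lin]
  simp only [h2] at h1
  rw [← Finset.add_sum_erase _ _ (Finset.mem_univ i₀)] at h1
  have hV := V_pos
  have h3 : L1 (lin ((g i₀).symm (g i₀ (zz r0))) ^ 8) = 144 * V := by
    rw [LinearIsometryEquiv.symm_apply_apply, lin_r0, L1_q8]
  have hn : ‖zz r0‖ ^ 2 = 2 := by
    have h5 : InShell 1 r0 := by
      refine ⟨⟨?_, ?_⟩, ?_⟩
      · unfold r0; decide
      · unfold r0; decide
      · unfold r0; decide
    rw [norm_zz h5]
    norm_num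
  have h4 : ∀ i, -24 * V ≤ L1 (lin ((g i).symm (g i₀ (zz r0))) ^ 8) := by
    intro i
    have h5 := Sg8_ge ((g i).symm (g i₀ (zz r0)))
    have h6 : ‖(g i).symm (g i₀ (zz r0))‖ ^ 8 = 16 := by
      rw [LinearIsometryEquiv.norm_map, LinearIsometryEquiv.norm_map,
        show ∀ x : ℝ, x ^ 8 = (x ^ 2) ^ 4 from fun x => by ring, hn]
      norm_num
    rw [L1_8, h6]
    rw [h6] at h5
    have h7 : -24 ≤ Sg 8 ((g i).symm (g i₀ (zz r0))) - 30 * 16 := by linarith
    exact mul_le_mul_of_nonneg_right h7 hV.le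
  have h8 : ∑ i ∈ Finset.univ.erase i₀, w i * (-24 * V) ≤
      ∑ i ∈ Finset.univ.erase i₀, w i * L1 (lin ((g i).symm (g i₀ (zz r0))) ^ 8) :=
    Finset.sum_le_sum fun i _ => mul_le_mul_of_nonneg_left (h4 i) (hw i)
  rw [← Finset.sum_mul] at h8
  rw [h3] at h1
  nlinarith

end Pool.Agent.T63.E8R
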